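import Mathlib

/-!
# Alternating context-sensitive grammars in leftmost mode: trees of bounded height
-/

set_option autoImplicit false

namespace Pool.Agent.H97.LH

/-- An alternating phrase-structure grammar of the leftmost shape: which variables are universal, the finite set of the
productions `x A α → x β` (`x` a terminal word, `A` a variable), given as `(x, A, α, β)`, the start symbol. -/
structure LSG (V T : Type) where
  univ : V → Prop
  rules : Finset (List T × V × List (V ⊕ T) × List (V ⊕ T))
  start : V

/-- the grammar is context-sensitive: no right-hand side is shorter than its left-hand side -/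
def LSG.Mono {V T : Type} (G : LSG V T) : Prop := ∀ x A α β, (x, A, α, β) ∈ G.rules → α.length + 1 ≤ β.length

/-- `Tree G w h f`: there is a tree of height at most `h` with root `f` in which the children of each inner node are the results
of one leftmost step (the occurrence of `x A α` is preceded by a terminal word `γ`; for universal `A` all productions with the
left-hand side `x A α` are applied) and all leaves are `w`. -/
inductive Tree {V T : Type} (G : LSG V T) (w : List T) : ℕ → List (V ⊕ T) → Prop
  | leaf (h : ℕ) : Tree G w h (w.map Sum.inr)
  | ex (h : ℕ) (γ x : List T) (A : V) (α β δ : List (V ⊕ T)) : ¬ G.univ A → (x, A, α, β) ∈ G.rules →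
      Tree G w h ((γ ++ x).map Sum.inr ++ (β ++ δ)) → Tree G w (h + 1) ((γ ++ x).map Sum.inr ++ Sum.inl A :: (α ++ δ))
  | all (h : ℕ) (γ x : List T) (A : V) (α δ : List (V ⊕ T)) : G.univ A → (∃ β, (x, A, α, β) ∈ G.rules) →
      (∀ β, (x, A, α, β) ∈ G.rules → Tree G w h ((γ ++ x).map Sum.inr ++ (β ++ δ))) →
      Tree G w (h + 1) ((γ ++ x).map Sum.inr ++ Sum.inl A :: (α ++ δ))

end Pool.Agent.H97.LH
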