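import Pool.Agent.H97.LH.Def

/-! Leftmost derivation trees of alternating context-sensitive grammars can be chosen of linear height. -/

set_option autoImplicit false
set_option linter.unusedVariables false
set_option linter.unusedSectionVars false

namespace Pool.Agent.H97.LH

variable {V T : Type}

theorem dec_append : ∀ (u γ : List T) (A : V) (f δ : List (V ⊕ T)),
    u.map Sum.inr ++ f = γ.map Sum.inr ++ Sum.inl A :: δ →
      ∃ γ', γ = u ++ γ' ∧ f = γ'.map Sum.inr ++ Sum.inl A :: δ
  | [], γ, A, f, δ => fun h => ⟨γ, rfl, by simpa using h⟩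
  | a :: u, [], A, f, δ => fun h => by simp at h
  | a :: u, b :: γ, A, f, δ => fun h => by
      simp only [List.map_cons, List.cons_append, List.cons.injEq, Sum.inr.injEq] at h
      obtain ⟨γ', h1, h2⟩ := dec_append u γ A f δ h.2
      exact ⟨γ', by rw [h1, h.1]; rfl, h2⟩

theorem Tree.succ {G : LSG V T} {w : List T} {h : ℕ} {f : List (V ⊕ T)} (H : Tree G w h f) : Tree G w (h + 1) f := by
  induction H with
  | leaf h => exact Tree.leaf _
  | ex h γ x A α β δ h1 h2 _ ih => exact Tree.ex _ γ x A α β δ h1 h2 ih
  | all h γ x A α δ h1 h2 _ ih => exact Tree.all _ γ x A α δ h1 h2 ih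

theorem Tree.mono {G : LSG V T} {w : List T} {h h' : ℕ} (hh : h ≤ h') {f : List (V ⊕ T)} (H : Tree G w h f) :
    Tree G w h' f := by
  induction hh with
  | refl => exact H
  | step _ ih => exact ih.succ

theorem Tree.len {G : LSG V T} (hG : G.Mono) {w : List T} {h : ℕ} {f : List (V ⊕ T)} (H : Tree G w h f) :
    f.length ≤ w.length := by
  induction H with
  | leaf h => simp
  | ex h γ x A α β δ h1 h2 _ ih =>
      have := hG x A α β h2
      simp only [List.length_append, List.length_map, List.length_cons] at ih ⊢
      omega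
  | all h γ x A α δ h1 h2 _ ih =>
      obtain ⟨β, hβ⟩ := h2
      have := hG x A α β hβ
      have ih := ih β hβ
      simp only [List.length_append, List.length_map, List.length_cons] at ih ⊢
      omega

theorem Tree.pref {G : LSG V T} {w : List T} {h : ℕ} {f : List (V ⊕ T)} (H : Tree G w h f) :
    ∀ (u : List T) (g : List (V ⊕ T)), f = u.map Sum.inr ++ g → u <+: w := by
  induction H with
  | leaf =>
      intro u g h
      rw [List.map_eq_append_iff] at h
      obtain ⟨l1, l2, h1, h2, _⟩ := h
      have h3 : l1 = u := (List.map_injective_iff.mpr Sum.inr_injective) h2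
      exact ⟨l2, by rw [h1, h3]⟩
  | ex h γ x A α β δ _ _ _ ih =>
      intro u g hf
      obtain ⟨γ', h3, _⟩ := dec_append u (γ ++ x) A g (α ++ δ) hf.symm
      exact ih u (γ'.map Sum.inr ++ (β ++ δ)) (by rw [h3]; simp)
  | all h γ x A α δ _ hn _ ih =>
      intro u g hf
      obtain ⟨γ', h3, _⟩ := dec_append u (γ ++ x) A g (α ++ δ) hf.symm
      obtain ⟨β, hβ⟩ := hn
      exact ih β hβ u (γ'.map Sum.inr ++ (β ++ δ)) (by rw [h3]; simp)

/-- the form with the terminal part `w.take i` and the rest `g` -/
def fr (w : List T) (i : ℕ) (g : List (V ⊕ T)) : List (V ⊕ T) := (w.take i).map Sum.inr ++ g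

theorem fr_cons {G : LSG V T} {w : List T} {h i : ℕ} {a : T} {g : List (V ⊕ T)} (hi : i ≤ w.length)
    (H : Tree G w h (fr w i (Sum.inr a :: g))) : i < w.length ∧ fr w i (Sum.inr a :: g) = fr w (i + 1) g := by
  have h1 := H.pref (w.take i ++ [a]) g (by simp [fr])
  have h3 : w.take i ++ [a] = w.take (i + 1) := by
    have := List.prefix_iff_eq_take.mp h1
    simpa [hi] using this
  have h4 : i + 1 ≤ w.length := by
    have := h1.length_le
    simpa [hi] using this
  refine ⟨h4, ?_⟩
  unfold fr
  rw [← h3]
  simp

/-- a map of the conditions on the children gives a map of trees, for a form which is not terminal -/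
theorem Tree.conv {G : LSG V T} {w : List T} {m m' i : ℕ} {A0 : V} {g : List (V ⊕ T)}
    (hc : ∀ α β δ, Sum.inl A0 :: g = Sum.inl A0 :: (α ++ δ) → (∃ x, (x, A0, α, β) ∈ G.rules) →
      Tree G w m (fr w i (β ++ δ)) → Tree G w m' (fr w i (β ++ δ)))
    (H : Tree G w (m + 1) (fr w i (Sum.inl A0 :: g))) : Tree G w (m' + 1) (fr w i (Sum.inl A0 :: g)) := by
  generalize hf : fr w i (Sum.inl A0 :: g) = f at H
  generalize hm : m + 1 = m1 at H
  cases H with
  | leaf h => exact Tree.leaf _
  | ex h γ x A α β δ h1 h2 h3 =>
      obtain rfl : m = h := by omega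
      obtain ⟨γ', h4, h5⟩ := dec_append _ (γ ++ x) A _ (α ++ δ) hf
      rcases γ' with _ | ⟨b, γ'⟩
      · simp only [List.map_nil, List.nil_append, List.cons.injEq, Sum.inl.injEq] at h5
        rw [List.append_nil] at h4
        obtain ⟨rfl, rfl⟩ := h5
        refine Tree.ex _ γ x A0 α β δ h1 h2 ?_
        rw [h4] at h3 ⊢
        exact hc α β δ rfl ⟨x, h2⟩ h3
      · simp at h5
  | all h γ x A α δ h1 h2 h3 =>
      obtain rfl : m = h := by omega
      obtain ⟨γ', h4, h5⟩ := dec_append _ (γ ++ x) A _ (α ++ δ) hf
      rcases γ' with _ | ⟨b, γ'⟩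
      · simp only [List.map_nil, List.nil_append, List.cons.injEq, Sum.inl.injEq] at h5
        rw [List.append_nil] at h4
        obtain ⟨rfl, rfl⟩ := h5
        refine Tree.all _ γ x A0 α δ h1 h2 ?_
        intro β hβ
        have h6 := h3 β hβ
        rw [h4] at h6 ⊢
        exact hc α β δ rfl ⟨x, hβ⟩ h6
      · simp at h5

/-- the potential -/
def pt (n i : ℕ) (g : List (V ⊕ T)) : ℕ := (n - (i + g.length)) + (n - i)

theorem linear [Finite V] [Finite T] (G : LSG V T) (hG : G.Mono) : ∃ K : ℕ, ∀ (w : List T) (p i : ℕ) (g : List (V ⊕ T)),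
    i ≤ w.length → pt w.length i g = p → ∀ h, Tree G w h (fr w i g) → Tree G w (K * (p + 1)) (fr w i g) := by
  classical
  have : Fintype V := Fintype.ofFinite V
  have : Fintype T := Fintype.ofFinite T
  set c : ℕ := G.rules.sup fun r => r.2.2.1.length + 1 with hc
  have hcr : ∀ x A α β, (x, A, α, β) ∈ G.rules → α.length + 1 ≤ c := fun x A α β h =>
    Finset.le_sup (f := fun r : List T × V × List (V ⊕ T) × List (V ⊕ T) => r.2.2.1.length + 1) h
  set K := Fintype.card (Fin c → Option (V ⊕ T)) with hK
  have hK1 : 1 ≤ K := Fintype.card_pos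
  refine ⟨K, fun w p => ?_⟩
  induction p using Nat.strong_induction_on with
  | _ p IH =>
  intro i g hi hp h H
  have hlen := H.len hG
  have hlen' : i + g.length ≤ w.length := by
    have := hlen
    unfold fr at this
    simp only [List.length_append, List.length_map, List.length_take] at this
    omega
  -- smaller potential
  have hIH : ∀ (m' : ℕ), K * p ≤ m' → ∀ j g', j ≤ w.length → pt w.length j g' < p → ∀ h, Tree G w h (fr w j g') →
      Tree G w m' (fr w j g') := by
    intro m' hm j g' hj hlt h H
    exact Tree.mono ((Nat.mul_le_mul_left K (by omega)).trans hm) (IH _ hlt j g' hj rfl h H)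
  -- forms which begin with a terminal
  have hterm : ∀ (m' : ℕ), K * p ≤ m' → ∀ a g', (Sum.inr a :: g').length = g.length → ∀ h,
      Tree G w h (fr w i (Sum.inr a :: g')) → Tree G w m' (fr w i (Sum.inr a :: g')) := by
    intro m' hm a g' hl h H
    obtain ⟨h1, h2⟩ := fr_cons hi H
    rw [h2] at H ⊢
    refine hIH m' hm (i + 1) g' h1 ?_ h H
    rw [← hp]
    unfold pt
    simp only [List.length_cons] at hl
    omega
  by_cases hg : g = []
  · -- terminal form
    subst hg
    have h1 : fr w i ([] : List (V ⊕ T)) = (w.take i).map Sum.inr := by simp [fr]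
    rw [h1] at H ⊢
    generalize hf : ((w.take i).map Sum.inr : List (V ⊕ T)) = f at H
    cases H with
    | leaf h => exact Tree.leaf _
    | ex h γ x A α β δ _ _ _ =>
        obtain ⟨γ', _, h4⟩ := dec_append (w.take i) (γ ++ x) A [] (α ++ δ) (by simpa using hf)
        simp at h4
    | all h γ x A α δ _ _ _ =>
        obtain ⟨γ', _, h4⟩ := dec_append (w.take i) (γ ++ x) A [] (α ++ δ) (by simpa using hf)
        simp at h4
  · -- the class of `g`
    set Cl : List (V ⊕ T) → Prop := fun g' => g'.length = g.length ∧ g'.drop c = g.drop c with hCl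
    have hstep : ∀ (m m' : ℕ), K * p ≤ m' → (∀ g', Cl g' → Tree G w m (fr w i g') → Tree G w m' (fr w i g')) →
        ∀ g', Cl g' → Tree G w (m + 1) (fr w i g') → Tree G w (m' + 1) (fr w i g') := by
      intro m m' hm hst g' hg' H'
      rcases g' with _ | ⟨X, g'⟩
      · exfalso
        have := hg'.1
        simp only [List.length_nil] at this
        exact hg (List.length_eq_zero_iff.mp this.symm)
      · rcases X with A0 | a
        · refine Tree.conv ?_ H'
          intro α β δ heq ⟨x, hr⟩ H2
          have h1 := hG x A0 α β hr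
          have h2 := hcr x A0 α β hr
          simp only [List.cons.injEq, true_and] at heq
          have hl2 := H2.len hG
          unfold fr at hl2
          simp only [List.length_append, List.length_map, List.length_take] at hl2
          have hl3 : (Sum.inl A0 :: g').length = g.length := hg'.1
          rw [heq] at hl3
          simp only [List.length_cons, List.length_append] at hl3
          rcases Nat.lt_or_ge (α.length + 1) β.length with h3 | h3
          · refine hIH m' hm i (β ++ δ) hi ?_ m H2
            rw [← hp]
            unfold pt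
            simp only [List.length_append]
            omega
          · have h4 : β.length = α.length + 1 := le_antisymm h3 h1
            refine hst (β ++ δ) ⟨by simp only [List.length_append]; omega, ?_⟩ H2
            rw [← hg'.2, heq]
            have e1 : c = β.length + (c - β.length) := by omega
            have e2 : (Sum.inl A0 :: (α ++ δ) : List (V ⊕ T)) = (Sum.inl A0 :: α) ++ δ := rfl
            rw [e2, List.drop_append, List.drop_append, List.drop_eq_nil_of_le (show β.length ≤ c by omega),
              List.drop_eq_nil_of_le (show (Sum.inl A0 :: α : List (V ⊕ T)).length ≤ c by simp only [List.length_cons]; omega)]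
            simp only [List.length_cons, h4]
        · exact hterm (m' + 1) (by omega) a g' hg'.1 _ H'
    obtain ⟨s, hs, hst⟩ : ∃ s ≤ K, ∀ g', Cl g' → Tree G w (K * p + s + 1) (fr w i g') → Tree G w (K * p + s) (fr w i g') := by
      by_contra hcon
      push Not at hcon
      choose! B hB0 hB1 hB2 using hcon
      have hinj : Function.Injective fun s : Fin (K + 1) => (fun j : Fin c => (B s)[(j : ℕ)]?) := by
        have hdet : ∀ s t : Fin (K + 1), (fun j : Fin c => (B s)[(j : ℕ)]?) = (fun j : Fin c => (B t)[(j : ℕ)]?) →
            B s = B t := by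
          intro s t hst
          apply List.ext_getElem?
          intro j
          rcases Nat.lt_or_ge j c with h1 | h1
          · exact congrFun hst ⟨j, h1⟩
          · have h2 : (B s).drop c = (B t).drop c :=
              (hB0 s (Nat.lt_succ_iff.mp s.2)).2.trans (hB0 t (Nat.lt_succ_iff.mp t.2)).2.symm
            have h3 := congrArg (fun l => l[j - c]?) h2
            simp only [List.getElem?_drop] at h3
            have h4 : c + (j - c) = j := by omega
            rw [h4] at h3
            exact h3
        intro s t hst
        by_contra hne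
        have key : ∀ s t : Fin (K + 1), s < t → B s ≠ B t := by
          intro s t hlt he
          apply hB2 t (Nat.lt_succ_iff.mp t.2)
          rw [← he]
          exact Tree.mono (by have : (s : ℕ) < t := hlt; omega) (hB1 s (Nat.lt_succ_iff.mp s.2))
        rcases lt_or_gt_of_ne hne with h1 | h1
        · exact key s t h1 (hdet s t hst)
        · exact key t s h1 (hdet s t hst).symm
      have h1 := Fintype.card_le_of_injective _ hinj
      rw [Fintype.card_fin, ← hK] at h1
      omega
    have hall : ∀ e g', Cl g' → Tree G w (K * p + s + e) (fr w i g') → Tree G w (K * p + s) (fr w i g') := by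
      intro e
      induction e with
      | zero => exact fun g' _ h => h
      | succ e ih =>
          intro g' hg' H'
          apply hst g' hg'
          exact hstep (K * p + s + e) (K * p + s) (Nat.le_add_right _ _) ih g' hg' H'
    exact Tree.mono (by rw [mul_add, mul_one]; omega)
      (hall h g ⟨rfl, rfl⟩ (Tree.mono (Nat.le_add_left _ _) H))

theorem linear_start [Finite V] [Finite T] (G : LSG V T) (hG : G.Mono) : ∃ K : ℕ, ∀ w : List T,
    (∃ h, Tree G w h [Sum.inl G.start]) → Tree G w (K * (w.length + 1)) [Sum.inl G.start] := by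
  obtain ⟨K, hK⟩ := linear G hG
  refine ⟨2 * K, fun w ⟨h, H⟩ => ?_⟩
  have h1 := hK w _ 0 [Sum.inl G.start] (Nat.zero_le _) rfl h (by simpa [fr] using H)
  have h2 : Tree G w (K * (pt w.length 0 ([Sum.inl G.start] : List (V ⊕ T)) + 1)) [Sum.inl G.start] := by
    simpa [fr] using h1
  refine Tree.mono ?_ h2
  have h3 : pt w.length 0 ([Sum.inl G.start] : List (V ⊕ T)) + 1 ≤ 2 * (w.length + 1) := by
    unfold pt
    omega
  calc K * (pt w.length 0 ([Sum.inl G.start] : List (V ⊕ T)) + 1) ≤ K * (2 * (w.length + 1)) := Nat.mul_le_mul_left _ h3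
    _ = 2 * K * (w.length + 1) := by ring

end Pool.Agent.H97.LH
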